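import Mathlib
import Pool.Agent.H46R3.DG.Stmts

/-! Binomial polynomials are polynomial phases (helper121 for helper46). -/

set_option autoImplicit false

namespace Pool.Agent.H121R3.DG

open Finset
open Pool.Agent.H46R3.DG
open Pool.Agent.H373R2.NB (Ph)

theorem taskA : TaskA := by
  intro d
  induction d with
  | zero =>
    intro c n
    simp
  | succ d ih =>
    intro c h
    have key := ih (fun j => ∑ i ∈ range (d + 1 + 1),
      if j < i then c i * (h.choose (i - j) : ℝ) else 0)
    have h1 : (∑ i ∈ range (d + 1 + 1), if d < i then c i * (h.choose (i - d) : ℝ) else 0) =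
        h * c (d + 1) := by
      rw [Finset.sum_range_succ, Finset.sum_eq_zero]
      · rw [if_pos (Nat.lt_succ_self d), show d + 1 - d = 1 by omega, Nat.choose_one_right]
        ring
      · intro i hi
        rw [mem_range] at hi
        rw [if_neg (by omega)]
    have h2 : (fun n : ℕ => ∑ j ∈ range (d + 1), (∑ i ∈ range (d + 1 + 1),
        if j < i then c i * (h.choose (i - j) : ℝ) else 0) * (n.choose j : ℝ)) =
        fun n : ℕ => (∑ i ∈ range (d + 1 + 1), c i * ((n + h).choose i : ℝ)) -
          ∑ i ∈ range (d + 1 + 1), c i * (n.choose i : ℝ) := by
      funext n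
      rw [← Finset.sum_sub_distrib]
      simp_rw [Finset.sum_mul]
      rw [Finset.sum_comm]
      apply Finset.sum_congr rfl
      intro i hi
      rw [mem_range] at hi
      have e : ∑ j ∈ range (d + 1),
          (if j < i then c i * (h.choose (i - j) : ℝ) else 0) * (n.choose j : ℝ) =
          ∑ j ∈ range i, c i * (h.choose (i - j) : ℝ) * (n.choose j : ℝ) := by
        symm
        have hsub : range i ⊆ range (d + 1) := Finset.range_subset_range.2 (by omega)
        rw [← Finset.sum_subset hsub]
        · apply Finset.sum_congr rfl
          intro j hj
          rw [mem_range] at hj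
          rw [if_pos hj]
        · intro j _ hj
          rw [mem_range] at hj
          rw [if_neg hj, zero_mul]
      rw [e, Nat.add_choose_eq,
        Finset.Nat.sum_antidiagonal_eq_sum_range_succ (fun a b => n.choose a * h.choose b),
        Finset.sum_range_succ]
      push_cast
      rw [Nat.sub_self, Nat.choose_zero_right, Nat.cast_one, mul_one, mul_add, add_sub_cancel_right,
        Finset.mul_sum]
      apply Finset.sum_congr rfl
      intro j _
      ring
    rw [h2] at key
    simp only [h1] at key
    exact key

end Pool.Agent.H121R3.DG
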